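import Pool.Agent.helper1.CK.St1
import Pool.Agent.helper91.CK.S0

/-!
CK project, module St2: enough irreducible representations.
-/

namespace Pool.Agent.helper32.CK

open scoped InnerProductSpace ComplexOrder
open Filter Topology

universe u v w

section St2

variable {B : Type u} [NonUnitalCStarAlgebra B]

/-- positive functionals of norm at most one, as functions -/
def St2_Q (B : Type u) [NonUnitalCStarAlgebra B] [PartialOrder B] : Set (B → ℂ) :=
  {f | (∀ x y, f (x + y) = f x + f y) ∧ (∀ (c : ℂ) x, f (c • x) = c * f x) ∧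
    (∀ x, 0 ≤ x → 0 ≤ f x) ∧ ∀ x, ‖f x‖ ≤ ‖x‖}

theorem St2_closed [PartialOrder B] : IsClosed (St2_Q B) := by
  have h1 : IsClosed {f : B → ℂ | ∀ x y, f (x + y) = f x + f y} := by
    simp only [Set.ofPred_forall]
    exact isClosed_iInter fun x => isClosed_iInter fun y =>
      isClosed_eq (continuous_apply _) (by fun_prop)
  have h2 : IsClosed {f : B → ℂ | ∀ (c : ℂ) x, f (c • x) = c * f x} := by
    simp only [Set.ofPred_forall]
    exact isClosed_iInter fun c => isClosed_iInter fun x =>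
      isClosed_eq (continuous_apply _) (continuous_const.mul (continuous_apply _))
  have h3 : IsClosed {f : B → ℂ | ∀ x, 0 ≤ x → 0 ≤ f x} := by
    simp only [Set.ofPred_forall]
    exact isClosed_iInter fun x => isClosed_iInter fun _ =>
      isClosed_le continuous_const (continuous_apply _)
  have h4 : IsClosed {f : B → ℂ | ∀ x, ‖f x‖ ≤ ‖x‖} := by
    simp only [Set.ofPred_forall]
    exact isClosed_iInter fun x => isClosed_le (continuous_apply _).norm continuous_const
  exact h1.inter (h2.inter (h3.inter h4))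

theorem St2_compact [PartialOrder B] : IsCompact (St2_Q B) := by
  have h : IsCompact (Set.pi Set.univ fun x : B => Metric.closedBall (0 : ℂ) ‖x‖) :=
    isCompact_univ_pi fun x => isCompact_closedBall _ _
  refine h.of_isClosed_subset St2_closed ?_
  intro f hf x _
  simpa using hf.2.2.2 x

/-- an element of `St2_Q` as a positive linear map -/
def St2_pos [PartialOrder B] [StarOrderedRing B] (f : B → ℂ) (hf : f ∈ St2_Q B) : B →ₚ[ℂ] ℂ :=
  PositiveLinearMap.mk₀ ⟨⟨f, hf.1⟩, hf.2.1⟩ hf.2.2.1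

theorem St2_self {H : Type v} [NormedAddCommGroup H] [InnerProductSpace ℂ H] (x : H) :
    ⟪x, x⟫_ℂ = ((‖x‖ ^ 2 : ℝ) : ℂ) := by
  rw [inner_self_eq_norm_sq_to_K]
  simp

theorem St2_inner_nonneg [PartialOrder B] [StarOrderedRing B] {H : Type v}
    [NormedAddCommGroup H] [InnerProductSpace ℂ H] [CompleteSpace H]
    (π : B →⋆ₙₐ[ℂ] (H →L[ℂ] H)) (x : H) (a : B) (ha : 0 ≤ a) : 0 ≤ ⟪x, π a x⟫_ℂ := by
  obtain ⟨c, rfl⟩ := CStarAlgebra.nonneg_iff_eq_star_mul_self.1 ha
  rw [map_mul, map_star, mul_apply_eq_comp, ContinuousLinearMap.star_eq_adjoint,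
    ContinuousLinearMap.adjoint_inner_right, St2_self]
  have : (0 : ℝ) ≤ ‖π c x‖ ^ 2 := by positivity
  exact Complex.zero_le_real.2 this

theorem St2_vec [PartialOrder B] [StarOrderedRing B] {H : Type v}
    [NormedAddCommGroup H] [InnerProductSpace ℂ H] [CompleteSpace H]
    (π : B →⋆ₙₐ[ℂ] (H →L[ℂ] H)) (x : H) (t : ℝ) (ht : 0 < t) (hx : ‖x‖ ^ 2 ≤ t) :
    (fun a => ((t⁻¹ : ℝ) : ℂ) * ⟪x, π a x⟫_ℂ) ∈ St2_Q B := by
  refine ⟨?_, ?_, ?_, ?_⟩
  · intro a b
    simp only [map_add, add_apply, inner_add_right]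
    ring
  · intro c a
    simp only [map_smul, smul_apply, inner_smul_right]
    ring
  · intro a ha
    have h1 := St2_inner_nonneg π x a ha
    have h2 : (0 : ℂ) ≤ ((t⁻¹ : ℝ) : ℂ) := by
      have : (0 : ℝ) ≤ t⁻¹ := by positivity
      exact_mod_cast this
    exact mul_nonneg h2 h1
  · intro a
    rw [norm_mul, Complex.norm_real, Real.norm_of_nonneg (by positivity)]
    have h1 : ‖⟪x, π a x⟫_ℂ‖ ≤ ‖x‖ * (‖a‖ * ‖x‖) := by
      refine (norm_inner_le_norm _ _).trans ?_
      gcongr
      refine ((π a).le_opNorm x).trans ?_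
      gcongr
      exact NonUnitalStarAlgHom.norm_apply_le π a
    rw [inv_mul_le_iff₀ ht]
    calc ‖⟪x, π a x⟫_ℂ‖ ≤ ‖x‖ * (‖a‖ * ‖x‖) := h1
      _ = ‖x‖ ^ 2 * ‖a‖ := by ring
      _ ≤ t * ‖a‖ := by gcongr

/-- the projection onto an invariant subspace commutes with the representation -/
theorem St2_comm {H : Type v} [NormedAddCommGroup H] [InnerProductSpace ℂ H] [CompleteSpace H]
    (π : B →⋆ₙₐ[ℂ] (H →L[ℂ] H)) (E : Submodule ℂ H) [E.HasOrthogonalProjection]
    (hE : ∀ a, ∀ x ∈ E, π a x ∈ E) (a : B) (x : H) :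
    E.starProjection (π a x) = π a (E.starProjection x) := by
  refine Submodule.eq_starProjection_of_mem_of_inner_eq_zero
    (hE a _ (E.starProjection_apply_mem x)) ?_
  intro y hy
  rw [← map_sub]
  have h1 : ⟪π a (x - E.starProjection x), y⟫_ℂ =
      ⟪x - E.starProjection x, π (star a) y⟫_ℂ := by
    rw [map_star, ContinuousLinearMap.star_eq_adjoint, ContinuousLinearMap.adjoint_inner_right]
  rw [h1]
  exact E.starProjection_inner_eq_zero x _ (hE (star a) y hy)

theorem exists_irr {B : Type u} [NonUnitalCStarAlgebra B] (b : B) (hb : b ≠ 0) :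
    ∃ (H : Type u) (_ : NormedAddCommGroup H) (_ : InnerProductSpace ℂ H) (_ : CompleteSpace H)
      (π : B →⋆ₙₐ[ℂ] (H →L[ℂ] H)), Irr π ∧ ‖b‖ ≤ ‖π b‖ := by
  let _ : PartialOrder B := CStarAlgebra.spectralOrder B
  have _ : StarOrderedRing B := CStarAlgebra.spectralOrderedRing B
  have hbb : 0 ≤ star b * b := star_mul_self_nonneg b
  have hbn : ‖star b * b‖ = ‖b‖ ^ 2 := by rw [CStarRing.norm_star_mul_self, sq]
  have hbpos : 0 < ‖b‖ ^ 2 := by
    have : 0 < ‖b‖ := norm_pos_iff.2 hb
    positivity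
  set F : Set (B → ℂ) := {f | f ∈ St2_Q B ∧ f (star b * b) = ((‖b‖ ^ 2 : ℝ) : ℂ)} with hF
  have hFc : IsCompact F := by
    refine St2_compact.inter_right ?_
    exact isClosed_eq (continuous_apply _) continuous_const
  have hFn : F.Nonempty := by
    obtain ⟨ψ, h1, h2⟩ := exists_state (star b * b) hbb
    refine ⟨ψ, ⟨fun x y => map_add ψ x y, fun c x => ?_, fun x hx => ψ.map_nonneg hx, h1⟩, ?_⟩
    · rw [map_smul]; rfl
    · rw [h2, hbn]
  obtain ⟨w, hw⟩ := hFc.extremePoints_nonempty hFn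
  rw [mem_extremePoints_iff_left] at hw
  obtain ⟨⟨hwQ, hwb⟩, hext⟩ := hw
  obtain ⟨G, i1, i2, i3, π, ξ, hξ, hin, hdense⟩ := gns_vec (St2_pos w hwQ) hwQ.2.2.2
  have hin' : ∀ a, ⟪ξ, π a ξ⟫_ℂ = w a := hin
  refine ⟨G, i1, i2, i3, π, ⟨⟨star b * b, ?_⟩, ?_⟩, ?_⟩
  · intro h0
    have := hin' (star b * b)
    rw [h0, hwb] at this
    simp only [zero_apply, inner_zero_right] at this
    have h1 : (‖b‖ ^ 2 : ℝ) = 0 := by exact_mod_cast this.symm
    exact hbpos.ne' h1
  · intro E hEc hE
    have _ : CompleteSpace E := hEc.completeSpace_coe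
    have hcomm := St2_comm π E hE
    set p := E.starProjection ξ with hp
    set q := ξ - p with hq
    have hpq : ⟪q, p⟫_ℂ = 0 := E.starProjection_inner_eq_zero ξ p (E.starProjection_apply_mem ξ)
    have hpq' : ⟪p, q⟫_ℂ = 0 := by rw [← inner_conj_symm, hpq, map_zero]
    have hsum : ‖p‖ ^ 2 + ‖q‖ ^ 2 ≤ 1 := by
      have h1 : ‖p + q‖ ^ 2 = ‖p‖ ^ 2 + ‖q‖ ^ 2 := by
        rw [sq, sq, sq]
        exact norm_add_sq_eq_norm_sq_add_norm_sq_of_inner_eq_zero p q hpq'
      have h2 : p + q = ξ := by rw [hq]; abel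
      rw [h2] at h1
      rw [← h1]
      exact pow_le_one₀ (norm_nonneg _) hξ
    have hEp : ∀ a, π a p ∈ E := fun a => hE a p (E.starProjection_apply_mem ξ)
    have horth : ∀ x ∈ E, ⟪q, x⟫_ℂ = 0 := fun x hx => E.starProjection_inner_eq_zero ξ x hx
    have hcross1 : ∀ a, ⟪q, π a p⟫_ℂ = 0 := fun a => horth _ (hEp a)
    have hcross2 : ∀ a, ⟪p, π a q⟫_ℂ = 0 := by
      intro a
      have h1 : ⟪p, π a q⟫_ℂ = ⟪π (star a) p, q⟫_ℂ := by
        rw [map_star, ContinuousLinearMap.star_eq_adjoint,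
          ContinuousLinearMap.adjoint_inner_left]
      rw [h1, ← inner_conj_symm, horth _ (hEp _), map_zero]
    have hdec : ∀ a, w a = ⟪p, π a p⟫_ℂ + ⟪q, π a q⟫_ℂ := by
      intro a
      have h2 : ξ = p + q := by rw [hq]; abel
      rw [← hin' a]
      conv_lhs => rw [h2]
      rw [map_add, inner_add_left, inner_add_right, inner_add_right, hcross1, hcross2]
      ring
    by_cases hp0 : p = 0
    · left
      have hzero : ∀ x, E.starProjection x = 0 := by
        have hcl : IsClosed {x : G | E.starProjection x = 0} :=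
          isClosed_eq E.starProjection.continuous continuous_const
        have hsub : Set.range (fun a => π a ξ) ⊆ {x : G | E.starProjection x = 0} := by
          rintro _ ⟨a, rfl⟩
          change E.starProjection (π a ξ) = 0
          rw [hcomm, ← hp, hp0, map_zero]
        have := hcl.closure_subset_iff.2 hsub
        rw [hdense.closure_eq] at this
        exact fun x => this (Set.mem_univ x)
      rw [Submodule.eq_bot_iff]
      intro x hx
      rw [← hzero x, Submodule.starProjection_eq_self_iff.2 hx]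
    by_cases hq0 : q = 0
    · right
      have hid : ∀ x, E.starProjection x = x := by
        have hcl : IsClosed {x : G | E.starProjection x = x} :=
          isClosed_eq E.starProjection.continuous continuous_id
        have hsub : Set.range (fun a => π a ξ) ⊆ {x : G | E.starProjection x = x} := by
          rintro _ ⟨a, rfl⟩
          change E.starProjection (π a ξ) = π a ξ
          have : p = ξ := by
            have := hq0
            rw [hq, sub_eq_zero] at this
            exact this.symm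
          rw [hcomm, ← hp, this]
        have := hcl.closure_subset_iff.2 hsub
        rw [hdense.closure_eq] at this
        exact fun x => this (Set.mem_univ x)
      rw [Submodule.eq_top_iff']
      intro x
      exact Submodule.starProjection_eq_self_iff.1 (hid x)
    exfalso
    have hppos : 0 < ‖p‖ ^ 2 := by
      have : 0 < ‖p‖ := norm_pos_iff.2 hp0
      positivity
    have hqpos : 0 < ‖q‖ ^ 2 := by
      have : 0 < ‖q‖ := norm_pos_iff.2 hq0
      positivity
    set l := ‖p‖ ^ 2 with hl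
    have hl1 : 0 < 1 - l := by linarith
    set f1 : B → ℂ := fun a => ((l⁻¹ : ℝ) : ℂ) * ⟪p, π a p⟫_ℂ with hf1
    set f2 : B → ℂ := fun a => (((1 - l)⁻¹ : ℝ) : ℂ) * ⟪q, π a q⟫_ℂ with hf2
    have hf1Q : f1 ∈ St2_Q B := St2_vec π p l hppos le_rfl
    have hf2Q : f2 ∈ St2_Q B := St2_vec π q (1 - l) hl1 (by linarith)
    have hconv : ∀ a, (l : ℂ) * f1 a + ((1 - l : ℝ) : ℂ) * f2 a = w a := by
      intro a
      rw [hdec a, hf1, hf2]
      simp only
      rw [← mul_assoc, ← mul_assoc, ← Complex.ofReal_mul, ← Complex.ofReal_mul,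
        mul_inv_cancel₀ hppos.ne', mul_inv_cancel₀ hl1.ne']
      simp
    -- both functionals lie in the face
    have hreal : ∀ f ∈ St2_Q B, (f (star b * b)).im = 0 ∧ (f (star b * b)).re ≤ ‖b‖ ^ 2 := by
      intro f hf
      have h1 := hf.2.2.1 _ hbb
      rw [Complex.le_def] at h1
      refine ⟨by simpa using h1.2.symm, ?_⟩
      rw [← hbn]
      exact (Complex.re_le_norm _).trans (hf.2.2.2 _)
    obtain ⟨im1, re1⟩ := hreal f1 hf1Q
    obtain ⟨im2, re2⟩ := hreal f2 hf2Q
    have hre : l * (f1 (star b * b)).re + (1 - l) * (f2 (star b * b)).re = ‖b‖ ^ 2 := by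
      have := congrArg Complex.re (hconv (star b * b))
      rw [hwb, Complex.add_re, Complex.re_ofReal_mul l (f1 _), Complex.re_ofReal_mul (1 - l) (f2 _),
        Complex.ofReal_re] at this
      exact this
    have hre1 : (f1 (star b * b)).re = ‖b‖ ^ 2 := by nlinarith
    have hre2 : (f2 (star b * b)).re = ‖b‖ ^ 2 := by nlinarith
    have hf1F : f1 ∈ F := ⟨hf1Q, Complex.ext (by rw [Complex.ofReal_re]; exact hre1)
      (by rw [Complex.ofReal_im]; exact im1)⟩
    have hf2F : f2 ∈ F := ⟨hf2Q, Complex.ext (by rw [Complex.ofReal_re]; exact hre2)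
      (by rw [Complex.ofReal_im]; exact im2)⟩
    have hseg : w ∈ openSegment ℝ f1 f2 := by
      refine ⟨l, 1 - l, hppos, hl1, by ring, ?_⟩
      funext a
      rw [← hconv a]
      simp [Complex.real_smul]
    have heq : f1 = w := hext f1 hf1F f2 hf2F hseg
    -- so `p = l ξ`
    have hη : p - (l : ℂ) • ξ = 0 := by
      have h1 : ∀ a, ⟪π a ξ, p - (l : ℂ) • ξ⟫_ℂ = 0 := by
        intro a
        have h2 : ⟪π a ξ, p - (l : ℂ) • ξ⟫_ℂ = ⟪ξ, π (star a) (p - (l : ℂ) • ξ)⟫_ℂ := by
          rw [map_star, ContinuousLinearMap.star_eq_adjoint,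
            ContinuousLinearMap.adjoint_inner_right]
        have h3 := congrFun heq (star a)
        rw [← hin' (star a), hf1] at h3
        simp only at h3
        have h4 : ⟪p, π (star a) p⟫_ℂ = (l : ℂ) * ⟪ξ, π (star a) ξ⟫_ℂ := by
          rw [← h3, ← mul_assoc, ← Complex.ofReal_mul, mul_inv_cancel₀ hppos.ne']
          simp
        have h5 : ⟪ξ, π (star a) p⟫_ℂ = ⟪p, π (star a) p⟫_ℂ := by
          have h6 : ξ = p + q := by rw [hq]; abel
          conv_lhs => rw [h6]
          rw [inner_add_left, hcross1, add_zero]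
        rw [h2, map_sub, map_smul, inner_sub_right, inner_smul_right, h5, h4, sub_self]
      have h7 : ∀ x : G, ⟪x, p - (l : ℂ) • ξ⟫_ℂ = 0 := by
        have hcl : IsClosed {x : G | ⟪x, p - (l : ℂ) • ξ⟫_ℂ = 0} :=
          isClosed_eq (continuous_id.inner continuous_const) continuous_const
        have hsub : Set.range (fun a => π a ξ) ⊆ {x : G | ⟪x, p - (l : ℂ) • ξ⟫_ℂ = 0} := by
          rintro _ ⟨a, rfl⟩
          exact h1 a
        have := hcl.closure_subset_iff.2 hsub
        rw [hdense.closure_eq] at this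
        exact fun x => this (Set.mem_univ x)
      exact inner_self_eq_zero.1 (h7 _)
    have hpξ : p = (l : ℂ) • ξ := sub_eq_zero.1 hη
    have h8 : E.starProjection p = p :=
      Submodule.starProjection_eq_self_iff.2 (E.starProjection_apply_mem ξ)
    have h9 : E.starProjection p = (l : ℂ) • p := by
      conv_lhs => rw [hpξ, map_smul]
    rw [h8] at h9
    have h10 : ((1 - l : ℝ) : ℂ) • p = 0 := by
      rw [Complex.ofReal_sub, sub_smul, ← h9]
      simp
    rcases smul_eq_zero.1 h10 with h | h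
    · have : (1 - l : ℝ) = 0 := by exact_mod_cast h
      linarith
    · exact hp0 h
  · have h1 := hin' (star b * b)
    rw [hwb, map_mul, map_star, mul_apply_eq_comp,
      ContinuousLinearMap.star_eq_adjoint, ContinuousLinearMap.adjoint_inner_right,
      St2_self] at h1
    have h2 : ‖π b ξ‖ ^ 2 = ‖b‖ ^ 2 := by exact_mod_cast h1
    have h3 : ‖π b ξ‖ = ‖b‖ := by
      have := (sq_eq_sq₀ (norm_nonneg _) (norm_nonneg _)).1 h2
      exact this
    rw [← h3]
    exact ((π b).le_opNorm ξ).trans (mul_le_of_le_one_right (norm_nonneg _) hξ)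

end St2

end Pool.Agent.helper32.CK
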