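import Pool.Agent.helper24.CK.K4
import Pool.Agent.helper1.CK.St2

/-!
CK project, module S1a: a positive functional near `⟪ξ, π (φ a) ξ⟫`.
-/

namespace Pool.Agent.helper32.CK

open scoped InnerProductSpace ComplexOrder
open Filter Topology

universe u v w

section S1a

theorem S1a_mul3 {B : Type v} [NonUnitalCStarAlgebra B] (x y : B) (hx : ‖x‖ ≤ 1) (hy : ‖y‖ ≤ 1) :
    ‖x * y‖ ≤ 1 :=
  (norm_mul_le x y).trans (mul_le_one₀ hx (norm_nonneg _) hy)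

theorem S1a_mul_left {B : Type v} [NonUnitalCStarAlgebra B] (x y : B) {t : ℝ} (hx : ‖x‖ ≤ 1)
    (hy : ‖y‖ ≤ t) : ‖x * y‖ ≤ t :=
  (norm_mul_le x y).trans ((mul_le_of_le_one_left (norm_nonneg _) hx).trans hy)

theorem S1a_mul_right {B : Type v} [NonUnitalCStarAlgebra B] (x y : B) {t : ℝ} (hx : ‖x‖ ≤ t)
    (hy : ‖y‖ ≤ 1) : ‖x * y‖ ≤ t :=
  (norm_mul_le x y).trans ((mul_le_of_le_one_right (norm_nonneg _) hy).trans hx)

theorem S1a_add4 {B : Type v} [NormedAddCommGroup B] (a b c d e : B) {s t u v : ℝ}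
    (h1 : ‖a - b‖ ≤ s) (h2 : ‖b - c‖ ≤ t) (h3 : ‖c - d‖ ≤ u) (h4 : ‖d - e‖ ≤ v) :
    ‖a - e‖ ≤ s + t + u + v := by
  have : a - e = (a - b) + (b - c) + (c - d) + (d - e) := by abel
  rw [this]
  refine (norm_add_le _ _).trans (add_le_add ((norm_add_le _ _).trans
    (add_le_add ((norm_add_le _ _).trans (add_le_add h1 h2)) h3)) h4)

/-- the functional for finitely many elements -/
theorem S1a_fin {A : Type u} {B : Type v} [NonUnitalCStarAlgebra A] [PartialOrder A]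
    [StarOrderedRing A] [NonUnitalCStarAlgebra B] {H : Type w} [NormedAddCommGroup H]
    [InnerProductSpace ℂ H] [CompleteSpace H] {π : B →⋆ₙₐ[ℂ] (H →L[ℂ] H)} (hπ : Irr π)
    (φ : A → B) (r : ℝ) (hr0 : 0 < r) (hr : r ≤ 1) (hφ : IsEpsIso (r ^ 2) φ) (ξ : H)
    (hξ : ‖ξ‖ = 1) (X : Finset A) (hX : ∀ a ∈ X, ‖a‖ ≤ 1) :
    ∃ g : A →ₚ[ℂ] ℂ, (∀ a, ‖g a‖ ≤ ‖a‖) ∧
      ∀ a ∈ X, ‖g a - ⟪ξ, π (φ a) ξ⟫_ℂ‖ ≤ 50 * r := by
  classical
  let _ : PartialOrder B := CStarAlgebra.spectralOrder B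
  have _ : StarOrderedRing B := CStarAlgebra.spectralOrderedRing B
  set ε := r ^ 2 with hε
  have hε0 : 0 < ε := by positivity
  have hN := hφ.norm_le
  obtain ⟨δ1, hδ1, hL'⟩ := hφ.linear
  have hL : ∀ (x y : A) (l m : ℂ), ‖x‖ ≤ 1 → ‖y‖ ≤ 1 → ‖l‖ ≤ 1 → ‖m‖ ≤ 1 →
    ‖φ (l • x + m • y) - l • φ x - m • φ y‖ ≤ ε :=
    fun x y l m h1 h2 h3 h4 => (hL' x y l m h1 h2 h3 h4).trans hδ1.le
  obtain ⟨δ2, hδ2, hS'⟩ := hφ.star
  have hS : ∀ x, ‖x‖ ≤ 1 → ‖φ (star x) - star (φ x)‖ ≤ ε := fun x h => (hS' x h).trans hδ2.le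
  obtain ⟨δ3, hδ3, hM'⟩ := hφ.mul
  have hM : ∀ x y, ‖x‖ ≤ 1 → ‖y‖ ≤ 1 → ‖φ (x * y) - φ x * φ y‖ ≤ ε :=
    fun x y h1 h2 => (hM' x y h1 h2).trans hδ3.le
  obtain ⟨δ4, hδ4, hI'⟩ := hφ.isometric
  have hI : ∀ x, ‖x‖ ≤ 1 → |‖x‖ - ‖φ x‖| ≤ ε := fun x h => (hI' x h).trans hδ4.le
  obtain ⟨b, hb0, hb1, hb2, hbX⟩ := hπ.excise ξ hξ (X.image φ) (ε / 2) (by positivity)
  obtain ⟨e, he1, hbe⟩ := hφ.onto b hb1
  have hbe' : ‖φ e - b‖ ≤ ε := by rw [norm_sub_rev]; exact hbe.le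
  have hbs : star b = b := (IsSelfAdjoint.of_nonneg hb0).star_eq
  have hφe := hN e he1
  set k := star e * e with hk
  have hse : ‖star e‖ ≤ 1 := by rw [norm_star]; exact he1
  have hk1 : ‖k‖ ≤ 1 := S1a_mul3 _ _ hse he1
  have hφk := hN k hk1
  have hbb1 : ‖b * b‖ ≤ 1 := S1a_mul3 _ _ hb1 hb1
  have e1 : ‖φ k - b * b‖ ≤ 4 * ε := by
    have := S1a_add4 (φ k) (φ (star e) * φ e) (star (φ e) * φ e) (b * φ e) (b * b)
      (s := ε) (t := ε) (u := ε) (v := ε) (hM _ _ hse he1)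
      (by rw [← sub_mul]; exact S1a_mul_right _ _ (hS e he1) hφe)
      (by
        rw [← sub_mul]
        refine S1a_mul_right _ _ ?_ hφe
        have : star (φ e) - b = star (φ e - b) := by rw [star_sub, hbs]
        rw [this, norm_star]
        exact hbe')
      (by rw [← mul_sub]; exact S1a_mul_left _ _ hb1 hbe')
    linarith
  have hkk1 : ‖k * k‖ ≤ 1 := S1a_mul3 _ _ hk1 hk1
  have e4 : ‖φ (k * k) - (b * b) * (b * b)‖ ≤ 9 * ε := by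
    have := S1a_add4 (φ (k * k)) (φ k * φ k) ((b * b) * φ k) ((b * b) * (b * b))
      ((b * b) * (b * b))
      (s := ε) (t := 4 * ε) (u := 4 * ε) (v := 0) (hM _ _ hk1 hk1)
      (by rw [← sub_mul]; exact S1a_mul_right _ _ e1 hφk)
      (by rw [← mul_sub]; exact S1a_mul_left _ _ hbb1 e1)
      (by rw [sub_self, norm_zero])
    linarith
  -- the norm of `k`
  have hkn : 1 - 6 * ε ≤ ‖k‖ := by
    have h1 : ‖b * b‖ = ‖b‖ ^ 2 := by
      have := CStarRing.norm_star_mul_self (x := b)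
      rw [hbs] at this
      rw [this, sq]
    have h2 : 1 - ε ≤ ‖b‖ ^ 2 := by nlinarith [sq_nonneg (1 - ‖b‖)]
    have h3 : ‖b * b‖ ≤ ‖φ k‖ + 4 * ε := by
      have : b * b = φ k - (φ k - b * b) := by abel
      rw [this]
      exact (norm_sub_le _ _).trans (by linarith)
    have h4 := abs_le.1 (hI k hk1)
    linarith [h4.1]
  have hk0 : 0 ≤ k := star_mul_self_nonneg e
  have hks : star k = k := (IsSelfAdjoint.of_nonneg hk0).star_eq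
  have hkk0 : 0 ≤ k * k := by
    have := star_mul_self_nonneg k
    rwa [hks] at this
  have hkkn : ‖k * k‖ = ‖k‖ ^ 2 := by
    have := CStarRing.norm_star_mul_self (x := k)
    rw [hks] at this
    rw [this, sq]
  have hkk2 : 1 - 12 * ε ≤ ‖k * k‖ := by
    rw [hkkn]
    nlinarith [sq_nonneg (1 - ‖k‖)]
  obtain ⟨ψ, hψ1, hψ2⟩ := exists_state (k * k) hkk0
  refine ⟨ψ, hψ1, ?_⟩
  obtain ⟨G, i1, i2, i3, σ, x0, hx0, hin, -⟩ := gns_vec ψ hψ1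
  have hσ : ∀ a, ‖a‖ ≤ 1 → ∀ x, ‖σ a x‖ ≤ ‖x‖ := by
    intro a ha x
    refine ((σ a).le_opNorm x).trans ?_
    refine mul_le_of_le_one_left (norm_nonneg _) ?_
    exact (NonUnitalStarAlgHom.norm_apply_le σ a).trans ha
  set y0 := σ k x0 with hy0
  have hadj : ∀ (a : A) (x y : G), ⟪x, σ a y⟫_ℂ = ⟪σ (star a) x, y⟫_ℂ := by
    intro a x y
    rw [map_star, ContinuousLinearMap.star_eq_adjoint, ContinuousLinearMap.adjoint_inner_left]
  have hψk : ψ k = ((‖σ e x0‖ ^ 2 : ℝ) : ℂ) := by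
    rw [← hin k, hk, map_mul, mul_apply_eq_comp, hadj, star_star, St2_self]
  have hψkk : ψ (k * k) = ((‖y0‖ ^ 2 : ℝ) : ℂ) := by
    rw [← hin (k * k), map_mul, mul_apply_eq_comp, hadj, hks, ← hy0, St2_self]
  have hle : ‖y0‖ ≤ ‖σ e x0‖ := by
    rw [hy0, hk, map_mul, mul_apply_eq_comp]
    exact hσ _ hse _
  have hy0n : ‖y0‖ ^ 2 = ‖k * k‖ := by
    rw [hψ2] at hψkk
    exact_mod_cast hψkk.symm
  have hdiff : ‖x0 - y0‖ ^ 2 ≤ 12 * ε := by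
    have h1 : ‖x0 - y0‖ ^ 2 = ‖x0‖ ^ 2 - 2 * (⟪x0, y0⟫_ℂ).re + ‖y0‖ ^ 2 := by
      rw [@norm_sub_sq ℂ]
      rfl
    have h2 : ⟪x0, y0⟫_ℂ = ((‖σ e x0‖ ^ 2 : ℝ) : ℂ) := by
      rw [hy0, hin k, hψk]
    rw [h2, Complex.ofReal_re] at h1
    have h3 : ‖y0‖ ^ 2 ≤ ‖σ e x0‖ ^ 2 := by
      have := norm_nonneg y0
      gcongr
    have h4 : ‖x0‖ ^ 2 ≤ 1 := pow_le_one₀ (norm_nonneg _) hx0
    rw [h1]
    linarith
  have hd : ‖x0 - y0‖ ≤ 7 / 2 * r := by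
    have h1 : ‖x0 - y0‖ ^ 2 ≤ (7 / 2 * r) ^ 2 := by
      refine hdiff.trans ?_
      rw [hε]
      nlinarith [sq_nonneg r]
    exact abs_le_of_sq_le_sq' h1 (by positivity) |>.2
  have hy01 : ‖y0‖ ≤ 1 := (hσ k hk1 x0).trans hx0
  intro a ha
  have ha1 := hX a ha
  set c := ⟪ξ, π (φ a) ξ⟫_ℂ with hc
  have hc1 : ‖c‖ ≤ 1 := by
    refine (norm_inner_le_norm _ _).trans ?_
    rw [hξ, one_mul]
    refine ((π (φ a)).le_opNorm ξ).trans ?_
    rw [hξ, mul_one]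
    exact (NonUnitalStarAlgHom.norm_apply_le π (φ a)).trans (hN a ha1)
  have hφa := hN a ha1
  have hka1 : ‖k * a‖ ≤ 1 := S1a_mul3 _ _ hk1 ha1
  have hkak1 : ‖k * a * k‖ ≤ 1 := S1a_mul3 _ _ hka1 hk1
  have e2 : ‖φ (k * a * k) - (b * b) * φ a * (b * b)‖ ≤ 10 * ε := by
    have := S1a_add4 (φ (k * a * k)) (φ (k * a) * φ k) (φ k * φ a * φ k) ((b * b) * φ a * φ k)
      ((b * b) * φ a * (b * b))
      (s := ε) (t := ε) (u := 4 * ε) (v := 4 * ε) (hM _ _ hka1 hk1)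
      (by rw [← sub_mul]; exact S1a_mul_right _ _ (hM _ _ hk1 ha1) hφk)
      (by
        rw [← sub_mul, ← sub_mul]
        exact S1a_mul_right _ _ (S1a_mul_right _ _ e1 hφa) hφk)
      (by
        rw [← mul_sub]
        exact S1a_mul_left _ _ (S1a_mul3 _ _ hbb1 hφa) e1)
    linarith
  have e3 : ‖(b * b) * φ a * (b * b) - c • ((b * b) * (b * b))‖ ≤ ε / 2 := by
    have h1 := hbX (φ a) (Finset.mem_image_of_mem φ ha)
    have h2 : (b * b) * φ a * (b * b) - c • ((b * b) * (b * b)) =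
        b * ((b * φ a * b - c • (b * b)) * b) := by
      simp only [sub_mul, mul_sub, smul_mul_assoc, mul_smul_comm, mul_assoc]
    rw [h2]
    exact S1a_mul_left _ _ hb1 (S1a_mul_right _ _ h1 hb1)
  set z := (1 / 2 : ℂ) • (k * a * k) + (-(c / 2)) • (k * k) with hz
  have hhalf : ‖(1 / 2 : ℂ)‖ = 1 / 2 := by
    rw [norm_div, norm_one]; norm_num
  have hch : ‖(-(c / 2) : ℂ)‖ = ‖c‖ / 2 := by
    rw [norm_neg, norm_div]; norm_num
  have hz1 : ‖z‖ ≤ 1 := by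
    rw [hz]
    refine (norm_add_le _ _).trans ?_
    rw [norm_smul, norm_smul, hhalf, hch]
    have h1 : ‖c‖ / 2 * ‖k * k‖ ≤ 1 / 2 * 1 := by
      gcongr
    linarith
  have e5 : ‖φ z‖ ≤ 11 * ε := by
    have h1 := hL (k * a * k) (k * k) (1 / 2) (-(c / 2)) hkak1 hkk1 (by rw [hhalf]; norm_num)
      (by rw [hch]; linarith)
    have h2 : φ z = (φ z - (1 / 2 : ℂ) • φ (k * a * k) - (-(c / 2)) • φ (k * k)) +
        (1 / 2 : ℂ) • (φ (k * a * k) - (b * b) * φ a * (b * b)) +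
        (1 / 2 : ℂ) • ((b * b) * φ a * (b * b) - c • ((b * b) * (b * b))) +
        (-(c / 2)) • (φ (k * k) - (b * b) * (b * b)) := by
      module
    rw [h2]
    have h3 : ‖(1 / 2 : ℂ) • (φ (k * a * k) - (b * b) * φ a * (b * b))‖ ≤ 5 * ε := by
      rw [norm_smul, hhalf]; linarith
    have h4 : ‖(1 / 2 : ℂ) • ((b * b) * φ a * (b * b) - c • ((b * b) * (b * b)))‖ ≤ ε / 4 := by
      rw [norm_smul, hhalf]; linarith
    have h5 : ‖(-(c / 2)) • (φ (k * k) - (b * b) * (b * b))‖ ≤ 9 / 2 * ε := by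
      rw [norm_smul, hch]
      have : ‖c‖ / 2 * ‖φ (k * k) - (b * b) * (b * b)‖ ≤ 1 / 2 * (9 * ε) := by
        gcongr
      linarith
    refine (norm_add_le _ _).trans ?_
    have h6 := norm_add_le (φ z - (1 / 2 : ℂ) • φ (k * a * k) - (-(c / 2)) • φ (k * k) +
        (1 / 2 : ℂ) • (φ (k * a * k) - (b * b) * φ a * (b * b)))
        ((1 / 2 : ℂ) • ((b * b) * φ a * (b * b) - c • ((b * b) * (b * b))))
    have h7 := norm_add_le (φ z - (1 / 2 : ℂ) • φ (k * a * k) - (-(c / 2)) • φ (k * k))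
        ((1 / 2 : ℂ) • (φ (k * a * k) - (b * b) * φ a * (b * b)))
    linarith
  have e6 : ‖z‖ ≤ 12 * ε := by
    have := abs_le.1 (hI z hz1)
    linarith [this.2]
  have e7 : ‖k * a * k - c • (k * k)‖ ≤ 24 * ε := by
    have h1 : k * a * k - c • (k * k) = (2 : ℂ) • z := by
      rw [hz]; module
    rw [h1, norm_smul]
    have : ‖(2 : ℂ)‖ = 2 := by norm_num
    rw [this]
    linarith
  -- conclusion
  have f1 : ‖ψ a - ψ (k * a * k)‖ ≤ 7 * r := by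
    have h1 : ψ a - ψ (k * a * k) = ⟪x0 - y0, σ a x0⟫_ℂ + ⟪y0, σ a (x0 - y0)⟫_ℂ := by
      have h2 : ψ (k * a * k) = ⟪y0, σ a y0⟫_ℂ := by
        rw [← hin (k * a * k), map_mul, map_mul, mul_apply_eq_comp, mul_apply_eq_comp, hadj, hks]
      rw [h2, ← hin a, map_sub, inner_sub_left, inner_sub_right]
      ring
    rw [h1]
    refine (norm_add_le _ _).trans ?_
    have h3 : ‖⟪x0 - y0, σ a x0⟫_ℂ‖ ≤ 7 / 2 * r * 1 := by
      refine (norm_inner_le_norm _ _).trans ?_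
      exact mul_le_mul hd ((hσ a ha1 x0).trans hx0) (norm_nonneg _) (by positivity)
    have h4 : ‖⟪y0, σ a (x0 - y0)⟫_ℂ‖ ≤ 1 * (7 / 2 * r) := by
      refine (norm_inner_le_norm _ _).trans ?_
      exact mul_le_mul hy01 ((hσ a ha1 _).trans hd) (norm_nonneg _) (by norm_num)
    linarith
  have f2 : ‖ψ (k * a * k) - c * ψ (k * k)‖ ≤ 24 * ε := by
    have h1 : ψ (k * a * k) - c * ψ (k * k) = ψ (k * a * k - c • (k * k)) := by
      rw [map_sub, map_smul]; rfl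
    rw [h1]
    exact (hψ1 _).trans e7
  have f3 : ‖c * ψ (k * k) - c‖ ≤ 12 * ε := by
    have h1 : c * ψ (k * k) - c = c * (((‖k * k‖ - 1 : ℝ)) : ℂ) := by
      rw [hψ2]; push_cast; ring
    rw [h1, norm_mul, Complex.norm_real, Real.norm_eq_abs]
    have h2 : |‖k * k‖ - 1| ≤ 12 * ε := by
      rw [abs_le]; constructor <;> linarith
    calc ‖c‖ * |‖k * k‖ - 1| ≤ 1 * (12 * ε) := by gcongr
      _ = 12 * ε := one_mul _
  have h8 : ψ a - c = (ψ a - ψ (k * a * k)) + (ψ (k * a * k) - c * ψ (k * k)) +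
      (c * ψ (k * k) - c) := by ring
  rw [h8]
  refine (norm_add_le _ _).trans ?_
  have h9 := norm_add_le (ψ a - ψ (k * a * k)) (ψ (k * a * k) - c * ψ (k * k))
  have h10 : ε ≤ r := by rw [hε]; nlinarith
  linarith

theorem near_functional {A : Type u} {B : Type v} [NonUnitalCStarAlgebra A] [PartialOrder A]
    [StarOrderedRing A] [NonUnitalCStarAlgebra B] {H : Type w} [NormedAddCommGroup H]
    [InnerProductSpace ℂ H] [CompleteSpace H] {π : B →⋆ₙₐ[ℂ] (H →L[ℂ] H)} (hπ : Irr π)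
    (φ : A → B) (r : ℝ) (hr0 : 0 < r) (hr : r ≤ 1) (hφ : IsEpsIso (r ^ 2) φ) (ξ : H)
    (hξ : ‖ξ‖ = 1) : ∃ g : A →ₚ[ℂ] ℂ, (∀ a, ‖g a‖ ≤ ‖a‖) ∧
      ∀ a, ‖a‖ ≤ 1 → ‖g a - ⟪ξ, π (φ a) ξ⟫_ℂ‖ ≤ 50 * r := by
  classical
  have hfin : ∀ X : Finset A, ∃ g : A → ℂ, g ∈ St2_Q A ∧
      ∀ a ∈ X, ‖a‖ ≤ 1 → ‖g a - ⟪ξ, π (φ a) ξ⟫_ℂ‖ ≤ 50 * r := by
    intro X
    obtain ⟨g, h1, h2⟩ := S1a_fin hπ φ r hr0 hr hφ ξ hξ (X.filter fun a => ‖a‖ ≤ 1)
      (fun a ha => (Finset.mem_filter.1 ha).2)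
    refine ⟨g, ⟨fun x y => map_add g x y, fun c x => ?_, fun x hx => g.map_nonneg hx, h1⟩, ?_⟩
    · rw [map_smul]; rfl
    · intro a ha ha1
      exact h2 a (Finset.mem_filter.2 ⟨ha, ha1⟩)
  choose g hgQ hg using hfin
  let 𝒰 : Ultrafilter (Finset A) := Ultrafilter.of atTop
  obtain ⟨f, hf, hlim⟩ := (St2_compact (B := A)).ultrafilter_le_nhds (𝒰.map g) (by
    rw [le_principal_iff]
    exact Filter.mem_map.2 (Filter.univ_mem' hgQ))
  have hlim' : Tendsto g 𝒰 (𝓝 f) := hlim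
  refine ⟨St2_pos f hf, hf.2.2.2, ?_⟩
  intro a ha1
  have h1 : Tendsto (fun X => g X a) 𝒰 (𝓝 (f a)) :=
    ((continuous_apply a).tendsto f).comp hlim'
  have h2 : Tendsto (fun X => ‖g X a - ⟪ξ, π (φ a) ξ⟫_ℂ‖) 𝒰 (𝓝 ‖f a - ⟪ξ, π (φ a) ξ⟫_ℂ‖) :=
    (h1.sub_const _).norm
  refine le_of_tendsto h2 ?_
  have h3 : ∀ᶠ X : Finset A in 𝒰, a ∈ X := by
    have : ∀ᶠ X : Finset A in atTop, a ∈ X := by
      filter_upwards [eventually_ge_atTop {a}] with X hX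
      exact hX (Finset.mem_singleton_self a)
    exact (Ultrafilter.of_le atTop) this
  filter_upwards [h3] with X hX
  exact hg X a hX ha1

end S1a

end Pool.Agent.helper32.CK
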