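import Pool.Agent.helper32.CK.Defs

/-!
CK project, module St1: positive functionals attaining the norm of a positive element.
-/

namespace Pool.Agent.helper32.CK

open scoped InnerProductSpace ComplexOrder CStarAlgebra
open Filter Topology

universe u v w

/-- a functional of norm at most one with `φ 1 = 1` is real on self-adjoint elements -/
theorem St1_real {A : Type u} [CStarAlgebra A] (φ : A →L[ℂ] ℂ) (h : ‖φ‖ ≤ 1) (h1 : φ 1 = 1)
    (a : A) (ha : IsSelfAdjoint a) : (φ a).im = 0 := by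
  rcases subsingleton_or_nontrivial A with hs | hn
  · have : (1 : A) = 0 := Subsingleton.elim _ _
    rw [this, map_zero] at h1
    exact absurd h1 zero_ne_one
  have key : ∀ t : ℝ, ((φ a).im + t) ^ 2 ≤ ‖a‖ ^ 2 + t ^ 2 := by
    intro t
    have e1 : ‖φ (a + (t * Complex.I) • (1 : A))‖ ^ 2 ≤ ‖a + (t * Complex.I) • (1 : A)‖ ^ 2 := by
      have : ‖φ (a + (t * Complex.I) • (1 : A))‖ ≤ ‖a + (t * Complex.I) • (1 : A)‖ := by
        refine (φ.le_opNorm _).trans ?_
        exact mul_le_of_le_one_left (norm_nonneg _) h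
      gcongr
    have e2 : ‖a + (t * Complex.I) • (1 : A)‖ ^ 2 ≤ ‖a‖ ^ 2 + t ^ 2 := by
      rw [sq, ← CStarRing.norm_star_mul_self]
      have : star (a + (t * Complex.I) • (1 : A)) * (a + (t * Complex.I) • (1 : A)) =
          a * a + ((t : ℂ) ^ 2) • (1 : A) := by
        rw [star_add, ha.star_eq, star_smul, star_one]
        simp only [add_mul, mul_add, smul_mul_assoc, one_mul, mul_smul_comm, mul_one]
        have e3 : star ((t : ℂ) * Complex.I) = -(t * Complex.I) := by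
          simp [Complex.conj_ofReal]
        rw [e3]
        have e4 : (-((t : ℂ) * Complex.I)) * (t * Complex.I) = (t : ℂ) ^ 2 := by
          ring_nf
          rw [Complex.I_sq]
          ring
        rw [← e4]
        module
      rw [this]
      refine (norm_add_le _ _).trans ?_
      refine add_le_add ?_ ?_
      · rw [sq]; exact norm_mul_le _ _
      · rw [norm_smul, norm_one, mul_one, norm_pow, Complex.norm_real, Real.norm_eq_abs, sq_abs]
    have e3 : φ (a + (t * Complex.I) • (1 : A)) = φ a + t * Complex.I := by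
      rw [map_add, map_smul, h1, smul_eq_mul, mul_one]
    rw [e3, ← Complex.normSq_eq_norm_sq, Complex.normSq_apply] at e1
    simp only [Complex.add_re, Complex.mul_re, Complex.ofReal_re, Complex.I_re, mul_zero,
      Complex.ofReal_im, Complex.I_im, mul_one, sub_self, add_zero, Complex.add_im,
      Complex.mul_im] at e1
    nlinarith [sq_nonneg (φ a).re]
  by_contra hne
  have hpos : 0 < (φ a).im ^ 2 := by positivity
  have := key ((‖a‖ ^ 2 + 1) / (2 * (φ a).im))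
  have e : 2 * (φ a).im * ((‖a‖ ^ 2 + 1) / (2 * (φ a).im)) = ‖a‖ ^ 2 + 1 := by
    field_simp
  nlinarith

/-- a functional of norm at most one with `φ 1 = 1` is positive -/
theorem St1_pos {A : Type u} [CStarAlgebra A] [PartialOrder A] [StarOrderedRing A]
    (φ : A →L[ℂ] ℂ) (h : ‖φ‖ ≤ 1) (h1 : φ 1 = 1) (a : A) (ha : 0 ≤ a) : 0 ≤ φ a := by
  rcases subsingleton_or_nontrivial A with hs | hn
  · have : (1 : A) = 0 := Subsingleton.elim _ _
    rw [this, map_zero] at h1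
    exact absurd h1 zero_ne_one
  have hsa : IsSelfAdjoint a := IsSelfAdjoint.of_nonneg ha
  have him := St1_real φ h h1 a hsa
  -- `‖ ‖a‖ - a ‖ ≤ ‖a‖`
  have hb : ‖algebraMap ℝ A ‖a‖ - a‖ ≤ ‖a‖ := by
    have h0 : 0 ≤ algebraMap ℝ A ‖a‖ - a := sub_nonneg.2 (IsSelfAdjoint.le_algebraMap_norm_self hsa)
    have h2 : algebraMap ℝ A ‖a‖ - a ≤ algebraMap ℝ A ‖a‖ := sub_le_self _ ha
    refine (CStarAlgebra.norm_le_norm_of_nonneg_of_le h0 h2).trans ?_
    rw [norm_algebraMap', norm_norm]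
  have h3 : ‖φ (algebraMap ℝ A ‖a‖ - a)‖ ≤ ‖a‖ := by
    refine (φ.le_opNorm _).trans ((mul_le_of_le_one_left (norm_nonneg _) h).trans hb)
  have h4 : φ (algebraMap ℝ A ‖a‖ - a) = ‖a‖ - φ a := by
    rw [map_sub]
    congr 1
    rw [Algebra.algebraMap_eq_smul_one, ← Complex.coe_smul, map_smul, h1]
    simp
  rw [h4] at h3
  have h5 : |((‖a‖ : ℂ) - φ a).re| ≤ ‖a‖ := (Complex.abs_re_le_norm _).trans h3
  rw [Complex.le_def]
  refine ⟨?_, ?_⟩
  · simp only [Complex.sub_re, Complex.ofReal_re] at h5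
    have := (abs_le.1 h5).2
    simp only [Complex.zero_re]
    linarith
  · simp [him]

theorem exists_state {A : Type u} [NonUnitalCStarAlgebra A] [PartialOrder A] [StarOrderedRing A]
    (x : A) (hx : 0 ≤ x) : ∃ ψ : A →ₚ[ℂ] ℂ, (∀ a, ‖ψ a‖ ≤ ‖a‖) ∧ ψ x = (‖x‖ : ℂ) := by
  let _ : PartialOrder A⁺¹ := CStarAlgebra.spectralOrder A⁺¹
  have _ : StarOrderedRing A⁺¹ := CStarAlgebra.spectralOrderedRing A⁺¹
  set X : A⁺¹ := (x : A⁺¹) with hX
  have hX0 : 0 ≤ X := Unitization.inr_nonneg_iff.2 hx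
  have hXn : ‖X‖ = ‖x‖ := Unitization.norm_inr (𝕜 := ℂ) x
  set Y : A⁺¹ := X + algebraMap ℝ A⁺¹ ‖X‖ with hY
  have hYn : 2 * ‖X‖ ≤ ‖Y‖ := by
    have h1 : ‖X‖ ∈ spectrum ℝ X := CStarAlgebra.norm_mem_spectrum_of_nonneg hX0
    have hsa : IsSelfAdjoint X := IsSelfAdjoint.of_nonneg hX0
    have h2 : Y = cfc (fun t : ℝ => t + ‖X‖) X := by
      rw [cfc_add_const ‖X‖ (fun t : ℝ => t) X, cfc_id' ℝ X]
    have h3 := norm_apply_le_norm_cfc (fun t : ℝ => t + ‖X‖) X h1
    rw [← h2] at h3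
    simp only [Real.norm_eq_abs] at h3
    have := le_abs_self (‖X‖ + ‖X‖)
    linarith
  obtain ⟨φ, hφ, hφY⟩ := exists_dual_vector'' ℂ Y
  have hφX : ‖φ X‖ ≤ ‖X‖ := (φ.le_opNorm _).trans (mul_le_of_le_one_left (norm_nonneg _) hφ)
  have hφ1 : ‖φ 1‖ ≤ 1 := by
    refine (φ.le_opNorm _).trans ?_
    rw [norm_one, mul_one]
    exact hφ
  have hsum : φ X + ‖X‖ * φ 1 = ‖Y‖ := by
    have e : φ Y = φ X + ‖X‖ * φ 1 := by
      rw [hY, map_add, Algebra.algebraMap_eq_smul_one, ← Complex.coe_smul, map_smul,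
        smul_eq_mul]
    rw [← e, hφY]
    rfl
  by_cases hx0 : ‖X‖ = 0
  · refine ⟨0, fun a => by simp, ?_⟩
    rw [hXn] at hx0
    rw [hx0]
    simp
  have hXpos : 0 < ‖X‖ := lt_of_le_of_ne (norm_nonneg _) (Ne.symm hx0)
  -- real parts
  have hre : (φ X).re + ‖X‖ * (φ 1).re = ‖Y‖ := by
    have := congrArg Complex.re hsum
    simpa using this
  have hr1 : (φ X).re ≤ ‖X‖ := (Complex.re_le_norm _).trans hφX
  have hr2 : (φ 1).re ≤ 1 := (Complex.re_le_norm _).trans hφ1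
  have hr3 : (φ X).re = ‖X‖ := by nlinarith
  have hr4 : (φ 1).re = 1 := by
    have : ‖X‖ * 1 ≤ ‖X‖ * (φ 1).re := by linarith
    have := le_of_mul_le_mul_left this hXpos
    linarith
  have hφ1' : φ 1 = 1 := by
    apply Complex.ext
    · simpa using hr4
    · have h5 : (φ 1).re ^ 2 + (φ 1).im ^ 2 ≤ 1 := by
        have := Complex.normSq_apply (φ 1)
        rw [Complex.normSq_eq_norm_sq] at this
        have h6 : ‖φ 1‖ ^ 2 ≤ 1 := pow_le_one₀ (norm_nonneg _) hφ1
        nlinarith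
      rw [hr4] at h5
      simp only [Complex.one_im]
      nlinarith
  have hφX' : φ X = (‖X‖ : ℂ) := by
    apply Complex.ext
    · simpa using hr3
    · have := St1_real φ hφ hφ1' X (IsSelfAdjoint.of_nonneg hX0)
      rw [this]
      simp
  let f : A →ₗ[ℂ] ℂ := φ.toLinearMap ∘ₗ (Unitization.inrHom ℂ ℂ A)
  refine ⟨PositiveLinearMap.mk₀ f ?_, ?_, ?_⟩
  · intro a ha
    exact St1_pos φ hφ hφ1' _ (Unitization.inr_nonneg_iff.2 ha)
  · intro a
    have h1 : ‖φ (a : A⁺¹)‖ ≤ ‖(a : A⁺¹)‖ :=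
      (φ.le_opNorm _).trans (mul_le_of_le_one_left (norm_nonneg _) hφ)
    rw [Unitization.norm_inr] at h1
    exact h1
  · rw [← hXn, ← hφX']
    rfl

end Pool.Agent.helper32.CK
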